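import Pool.Agent.Helper50.VC.Dbl
import Pool.Agent.Helper31.EC.Rl

/-! Exact entropy calculus: closing all but one of the real factors of a vector block by one more exact copy. -/

set_option autoImplicit false

namespace Pool.Agent.Helper4.CV

open Pool.Agent.Helper31.EC QS Pool.Agent.Helper38.NS

noncomputable section

/-- a vector block `z3 = z + ∑ x_i C_i + ∑ y_j A_j + a(P) + b(Q)`: `x, A, a` left, `y, C, b` right -/
structure Vk (S : Sp) (ν ιx ιy ιB ιP ιQ : Type) [Fintype ν] [Fintype ιx] [Fintype ιy] [Fintype ιB] [Fintype ιP]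
    [Fintype ιQ] where
  fB : ιB → QS S
  fP : ιP → QS S
  fQ : ιQ → QS S
  x : ιx → QS S
  C : ιx → ν → QS S
  y : ιy → QS S
  A : ιy → ν → QS S
  a : ν → QS S
  b : ν → QS S
  z : ν → QS S

section

variable {S : Sp} {ν ιx ιy ιB ιP ιQ : Type} [Fintype ν] [Fintype ιx] [Fintype ιy] [Fintype ιB] [Fintype ιP]
  [Fintype ιQ]

namespace Vk

variable (β : Vk S ν ιx ιy ιB ιP ιQ)

def pf : ιx ⊕ ((ιy × ν) ⊕ (ν ⊕ ιP)) → QS S :=
  Sum.elim β.x (Sum.elim (fun w => β.A w.1 w.2) (Sum.elim β.a β.fP))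

def qf : ιy ⊕ ((ιx × ν) ⊕ (ν ⊕ ιQ)) → QS S :=
  Sum.elim β.y (Sum.elim (fun w => β.C w.1 w.2) (Sum.elim β.b β.fQ))

def P : S.L := vd β.pf 1
def Q : S.L := vd β.qf 1
def B : S.L := vd β.fB 1

def z3 (n : ν) : QS S := β.z n + ∑ i, β.x i * β.C i n + ∑ j, β.y j * β.A j n + β.a n + β.b n

structure Ok : Prop where
  iz : I (vd β.z 1) (β.P ⊔ β.Q) β.B = 0
  iz3 : I (vd β.z3 1) (β.P ⊔ β.Q) β.B = 0
  ipq : I β.P β.Q β.B = 0
  rx : Rl β.x β.B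
  ry : Rl β.y β.B

def swap : Vk S ν ιy ιx ιB ιQ ιP where
  fB := β.fB
  fP := β.fQ
  fQ := β.fP
  x := β.y
  C := β.A
  y := β.x
  A := β.C
  a := β.b
  b := β.a
  z := β.z

theorem swap_P : β.swap.P = β.Q := rfl

theorem swap_Q : β.swap.Q = β.P := rfl

theorem swap_z3 (n : ν) : β.swap.z3 n = β.z3 n := by
  unfold z3 swap
  ring

theorem x_le (i : ιx) : dg (β.x i) 1 ≤ β.P := dg_le_vd β.pf 1 (Sum.inl i)

theorem A_le (j : ιy) (n : ν) : dg (β.A j n) 1 ≤ β.P := dg_le_vd β.pf 1 (Sum.inr (Sum.inl (j, n)))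

theorem a_le (n : ν) : dg (β.a n) 1 ≤ β.P := dg_le_vd β.pf 1 (Sum.inr (Sum.inr (Sum.inl n)))

theorem fP_le (t : ιP) : dg (β.fP t) 1 ≤ β.P := dg_le_vd β.pf 1 (Sum.inr (Sum.inr (Sum.inr t)))

theorem y_le (j : ιy) : dg (β.y j) 1 ≤ β.Q := β.swap.x_le j

theorem C_le (i : ιx) (n : ν) : dg (β.C i n) 1 ≤ β.Q := β.swap.A_le i n

theorem b_le (n : ν) : dg (β.b n) 1 ≤ β.Q := β.swap.a_le n

theorem fQ_le (t : ιQ) : dg (β.fQ t) 1 ≤ β.Q := β.swap.fP_le t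

variable {β} in
theorem Ok.swap (ok : β.Ok) : β.swap.Ok where
  iz := by
    rw [swap_P, swap_Q, sup_comm]
    exact ok.iz
  iz3 := by
    rw [swap_P, swap_Q, sup_comm, vd_congr β.swap_z3 1]
    exact ok.iz3
  ipq := ind_symm ok.ipq
  rx := ok.ry
  ry := ok.rx

/-- the block of the differences of two copies -/
def clo {D : Sp} (p1 p2 : Pj D S) (i0 : ιx) : Vk D ν Unit ιy ιB
    ((ιx ⊕ ((ιy × ν) ⊕ (ν ⊕ ιP))) ⊕ (ιx ⊕ ((ιy × ν) ⊕ (ν ⊕ ιP)))) ιQ where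
  fB := fun t => p1.qs (β.fB t)
  fP := Sum.elim (fun t => p1.qs (β.pf t)) (fun t => p2.qs (β.pf t))
  fQ := fun t => p1.qs (β.fQ t)
  x := fun _ => p1.qs (β.x i0) - p2.qs (β.x i0)
  C := fun _ n => p1.qs (β.C i0 n)
  y := fun j => p1.qs (β.y j)
  A := fun j n => p1.qs (β.A j n) - p2.qs (β.A j n)
  a := fun n => p1.qs (β.a n) - p2.qs (β.a n)
  b := fun _ => 0
  z := fun n => p1.qs (β.z n)

theorem clo_B {D : Sp} (p1 p2 : Pj D S) (i0 : ιx) : (β.clo p1 p2 i0).B = p1.map β.B := p1.qs_vd β.fB 1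

theorem clo_Z {D : Sp} (p1 p2 : Pj D S) (i0 : ιx) : vd (β.clo p1 p2 i0).z 1 = p1.map (vd β.z 1) := p1.qs_vd β.z 1

theorem clo_P {D : Sp} (p1 p2 : Pj D S) (i0 : ιx) : (β.clo p1 p2 i0).P ≤ p1.map β.P ⊔ p2.map β.P := by
  unfold P
  rw [vd_le]
  rintro (u | ⟨j, n⟩ | n | (t | t))
  · show dg (p1.qs (β.x i0) - p2.qs (β.x i0)) 1 ≤ _
    refine (dg_sub_le _ _ le_rfl).trans ?_
    rw [p1.qs_dg, p2.qs_dg]
    exact sup_le_sup (p1.map_mono (β.x_le i0)) (p2.map_mono (β.x_le i0))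
  · show dg (p1.qs (β.A j n) - p2.qs (β.A j n)) 1 ≤ _
    refine (dg_sub_le _ _ le_rfl).trans ?_
    rw [p1.qs_dg, p2.qs_dg]
    exact sup_le_sup (p1.map_mono (β.A_le j n)) (p2.map_mono (β.A_le j n))
  · show dg (p1.qs (β.a n) - p2.qs (β.a n)) 1 ≤ _
    refine (dg_sub_le _ _ le_rfl).trans ?_
    rw [p1.qs_dg, p2.qs_dg]
    exact sup_le_sup (p1.map_mono (β.a_le n)) (p2.map_mono (β.a_le n))
  · show dg (p1.qs (β.pf t)) 1 ≤ _
    rw [p1.qs_dg]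
    exact (p1.map_mono (dg_le_vd β.pf 1 t)).trans le_sup_left
  · show dg (p2.qs (β.pf t)) 1 ≤ _
    rw [p2.qs_dg]
    exact (p2.map_mono (dg_le_vd β.pf 1 t)).trans le_sup_right

theorem clo_P1 {D : Sp} (p1 p2 : Pj D S) (i0 : ιx) : p1.map β.P ≤ (β.clo p1 p2 i0).P := by
  unfold P
  rw [← p1.qs_vd, vd_le]
  intro t
  exact (β.clo p1 p2 i0).fP_le (Sum.inl t)

theorem clo_P2 {D : Sp} (p1 p2 : Pj D S) (i0 : ιx) : p2.map β.P ≤ (β.clo p1 p2 i0).P := by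
  unfold P
  rw [← p2.qs_vd, vd_le]
  intro t
  exact (β.clo p1 p2 i0).fP_le (Sum.inr t)

theorem clo_Q {D : Sp} (p1 p2 : Pj D S) (i0 : ιx) : (β.clo p1 p2 i0).Q ≤ p1.map β.Q := by
  unfold Q
  rw [vd_le]
  rintro (j | ⟨u, n⟩ | n | t)
  · show dg (p1.qs (β.y j)) 1 ≤ _
    rw [p1.qs_dg]
    exact p1.map_mono (β.y_le j)
  · show dg (p1.qs (β.C i0 n)) 1 ≤ _
    rw [p1.qs_dg]
    exact p1.map_mono (β.C_le i0 n)
  · exact (Kn D 1 le_rfl _).zero_mem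
  · show dg (p1.qs (β.fQ t)) 1 ≤ _
    rw [p1.qs_dg]
    exact p1.map_mono (β.fQ_le t)

/-- common data of the two copies -/
structure Com {D : Sp} (p1 p2 : Pj D S) (i0 : ιx) : Prop where
  cB : ∀ t, p1.qs (β.fB t) = p2.qs (β.fB t)
  cQ : ∀ t, p1.qs (β.qf t) = p2.qs (β.qf t)
  cz : ∀ n, p1.qs (β.z3 n) = p2.qs (β.z3 n)
  cx : ∀ i, i ≠ i0 → p1.qs (β.x i) = p2.qs (β.x i)

variable {β} in
theorem Com.z3 {D : Sp} {p1 p2 : Pj D S} {i0 : ιx} (c : β.Com p1 p2 i0) (n : ν) :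
    (β.clo p1 p2 i0).z3 n = p2.qs (β.z n) := by
  classical
  have e0 := c.cz n
  unfold Vk.z3 at e0
  simp only [map_add, map_sum, map_mul] at e0
  have h1 : ∑ i, p2.qs (β.x i) * p2.qs (β.C i n) = ∑ i, p2.qs (β.x i) * p1.qs (β.C i n) := by
    apply Finset.sum_congr rfl
    intro i _
    have h2 : p1.qs (β.C i n) = p2.qs (β.C i n) := c.cQ (Sum.inr (Sum.inl (i, n)))
    rw [h2]
  have h2 : ∑ j, p2.qs (β.y j) * p2.qs (β.A j n) = ∑ j, p1.qs (β.y j) * p2.qs (β.A j n) := by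
    apply Finset.sum_congr rfl
    intro j _
    have h2 : p1.qs (β.y j) = p2.qs (β.y j) := c.cQ (Sum.inl j)
    rw [h2]
  have h3 : p1.qs (β.b n) = p2.qs (β.b n) := c.cQ (Sum.inr (Sum.inr (Sum.inl n)))
  have h4 : ∑ i, p1.qs (β.x i) * p1.qs (β.C i n) - ∑ i, p2.qs (β.x i) * p1.qs (β.C i n) =
      (p1.qs (β.x i0) - p2.qs (β.x i0)) * p1.qs (β.C i0 n) := by
    rw [← Finset.sum_sub_distrib, Finset.sum_eq_single i0]
    · ring
    · intro i _ hi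
      rw [c.cx i hi]
      ring
    · intro h
      exact absurd (Finset.mem_univ i0) h
  have h5 : ∑ j, p1.qs (β.y j) * (p1.qs (β.A j n) - p2.qs (β.A j n)) =
      ∑ j, p1.qs (β.y j) * p1.qs (β.A j n) - ∑ j, p1.qs (β.y j) * p2.qs (β.A j n) := by
    rw [← Finset.sum_sub_distrib]
    apply Finset.sum_congr rfl
    intro j _
    ring
  rw [h1, h2, ← h3] at e0
  show p1.qs (β.z n) + ∑ _i : Unit, (p1.qs (β.x i0) - p2.qs (β.x i0)) * p1.qs (β.C i0 n) +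
    ∑ j, p1.qs (β.y j) * (p1.qs (β.A j n) - p2.qs (β.A j n)) + (p1.qs (β.a n) - p2.qs (β.a n)) + 0 = _
  rw [h5, Finset.univ_unique, Finset.sum_singleton]
  linear_combination e0 - h4

/-- CLOSE: two copies over the right side, the other end and all but one of the real factors -/
theorem exists_close [DecidableEq ιx] (ok : β.Ok) (i0 : ιx) : ∃ (D : Sp) (p1 p2 : Pj D S), β.Com p1 p2 i0 ∧
    (∀ x y, I (p1.map x) (p2.map y) (p1.map (β.Q ⊔ vd β.z3 1 ⊔ sd β.x (Finset.univ.erase i0) ⊔ β.B)) = 0) ∧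
    (∀ x, I (p1.map β.P) (p2.map x) (p1.map (β.Q ⊔ vd β.z3 1 ⊔ sd β.x (Finset.univ.erase i0) ⊔ β.B)) = 0) ∧
    I (p1.map β.P) (p2.map β.P) (p1.map (sd β.x (Finset.univ.erase i0) ⊔ β.B)) = 0 ∧
    (β.clo p1 p2 i0).Ok := by
  obtain ⟨xr, hxr⟩ : ∃ xr : {i : ιx // i ≠ i0} → QS S, xr = fun i => β.x i.1 := ⟨_, rfl⟩
  obtain ⟨D, p1, p2, c4, i4, m4⟩ := exists_copyS (Sum.elim β.fB (Sum.elim β.qf (Sum.elim β.z3 xr)))
  have cB : ∀ t, p1.qs (β.fB t) = p2.qs (β.fB t) := fun t => c4 (Sum.inl t)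
  have cQ : ∀ t, p1.qs (β.qf t) = p2.qs (β.qf t) := fun t => c4 (Sum.inr (Sum.inl t))
  have cz : ∀ n, p1.qs (β.z3 n) = p2.qs (β.z3 n) := fun n => c4 (Sum.inr (Sum.inr (Sum.inl n)))
  have cr : ∀ i, p1.qs (xr i) = p2.qs (xr i) := fun i => c4 (Sum.inr (Sum.inr (Sum.inr i)))
  have cx : ∀ i, i ≠ i0 → p1.qs (β.x i) = p2.qs (β.x i) := by
    intro i hi
    have h1 := cr ⟨i, hi⟩
    rw [hxr] at h1
    exact h1
  have com : β.Com p1 p2 i0 := ⟨cB, cQ, cz, cx⟩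
  rw [vd_sum, vd_sum, vd_sum] at i4
  have eX : vd xr 1 = sd β.x (Finset.univ.erase i0) := by
    apply le_antisymm
    · rw [vd_le]
      intro i
      rw [hxr]
      exact dg_le_sd β.x (Finset.mem_erase.mpr ⟨i.2, Finset.mem_univ _⟩)
    · rw [sd_le]
      intro i hi
      have h1 := dg_le_vd xr 1 ⟨i, (Finset.mem_erase.mp hi).1⟩
      rw [hxr] at h1
      rw [hxr]
      exact h1
  rw [eX] at i4
  have V1 : vd β.fB 1 ⊔ (vd β.qf 1 ⊔ (vd β.z3 1 ⊔ sd β.x (Finset.univ.erase i0))) =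
      β.Q ⊔ vd β.z3 1 ⊔ sd β.x (Finset.univ.erase i0) ⊔ β.B := by
    have e1 : β.Q = vd β.qf 1 := rfl
    have e2 : β.B = vd β.fB 1 := rfl
    rw [e1, e2]
    order
  rw [V1] at i4
  have eB : p2.map β.B = p1.map β.B := by
    unfold Vk.B
    rw [← p1.qs_vd, ← p2.qs_vd]
    exact (vd_congr cB 1).symm
  have eQ : p2.map β.Q = p1.map β.Q := by
    unfold Vk.Q
    rw [← p1.qs_vd, ← p2.qs_vd]
    exact (vd_congr cQ 1).symm
  have ez : p2.map (vd β.z3 1) = p1.map (vd β.z3 1) := by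
    rw [← p1.qs_vd, ← p2.qs_vd]
    exact (vd_congr cz 1).symm
  have ex : p2.map (sd β.x (Finset.univ.erase i0)) = p1.map (sd β.x (Finset.univ.erase i0)) := by
    rw [← eX, ← p1.qs_vd, ← p2.qs_vd]
    exact (vd_congr cr 1).symm
  have a1 := p1.I_map (vd β.z 1) (β.P ⊔ β.Q) β.B
  rw [ok.iz, p1.map_sup] at a1
  have a2 := p2.I_map (vd β.z 1) (β.P ⊔ β.Q) β.B
  rw [ok.iz, p2.map_sup, eB, eQ] at a2
  have a3 := p1.I_map (vd β.z3 1) (β.P ⊔ β.Q) β.B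
  rw [ok.iz3, p1.map_sup] at a3
  have a4 := p2.I_map (vd β.z3 1) (β.P ⊔ β.Q) β.B
  rw [ok.iz3, p2.map_sup, eB, eQ, ez] at a4
  have a5 := p1.I_map β.P β.Q β.B
  rw [ok.ipq] at a5
  have a6 := p2.I_map β.P β.Q β.B
  rw [ok.ipq, eB, eQ] at a6
  have lx : sd β.x (Finset.univ.erase i0) ≤ β.P := by
    rw [sd_le]
    exact fun i _ => β.x_le i
  obtain ⟨B, hB⟩ : ∃ B, B = p1.map β.B := ⟨_, rfl⟩
  obtain ⟨P1, hP1⟩ : ∃ P, P = p1.map β.P := ⟨_, rfl⟩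
  obtain ⟨P2, hP2⟩ : ∃ P, P = p2.map β.P := ⟨_, rfl⟩
  obtain ⟨Q, hQ⟩ : ∃ Q, Q = p1.map β.Q := ⟨_, rfl⟩
  obtain ⟨Z1, hZ1⟩ : ∃ Z, Z = p1.map (vd β.z 1) := ⟨_, rfl⟩
  obtain ⟨Z2, hZ2⟩ : ∃ Z, Z = p2.map (vd β.z 1) := ⟨_, rfl⟩
  obtain ⟨Z3, hZ3⟩ : ∃ Z, Z = p1.map (vd β.z3 1) := ⟨_, rfl⟩
  obtain ⟨X, hX⟩ : ∃ X, X = p1.map (sd β.x (Finset.univ.erase i0)) := ⟨_, rfl⟩
  have X1 : X ≤ P1 := by rw [hX, hP1]; exact p1.map_mono lx
  have X2 : X ≤ P2 := by rw [hX, ← ex, hP2]; exact p2.map_mono lx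
  rw [← hZ1, ← hP1, ← hQ, ← hB] at a1
  rw [← hZ2, ← hP2, ← hQ, ← hB] at a2
  rw [← hZ3, ← hP1, ← hQ, ← hB] at a3
  rw [← hZ3, ← hP2, ← hQ, ← hB] at a4
  rw [← hP1, ← hQ, ← hB] at a5
  rw [← hP2, ← hQ, ← hB] at a6
  have eV : p1.map (β.Q ⊔ vd β.z3 1 ⊔ sd β.x (Finset.univ.erase i0) ⊔ β.B) = Q ⊔ Z3 ⊔ X ⊔ B := by
    rw [p1.map_sup, p1.map_sup, p1.map_sup, hQ, hZ3, hX, hB]
  have j4 := i4
  rw [eV] at i4
  -- the left sides are independent of the right side and the other end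
  have s1 : I P1 (Q ⊔ Z3) B = 0 := by
    refine ind_add a5 (C' := Q ⊔ B) (ind_symm ?_) rfl
    exact ind_of a3 (by order) (by order) (by order) (by order)
  have s1' : I P2 (Q ⊔ Z3) B = 0 := by
    refine ind_add a6 (C' := Q ⊔ B) (ind_symm ?_) rfl
    exact ind_of a4 (by order) (by order) (by order) (by order)
  have s1x : I P1 (Q ⊔ Z3) (X ⊔ B) = 0 :=
    ind_symm (ind_of (ind_symm s1) (by order) (by order) (by order) (by order))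
  have s1x' : I P2 (Q ⊔ Z3) (X ⊔ B) = 0 :=
    ind_symm (ind_of (ind_symm s1') (by order) (by order) (by order) (by order))
  have s2 : ∀ x, I P1 ((Q ⊔ Z3) ⊔ p2.map x) (X ⊔ B) = 0 := by
    intro x
    refine ind_add s1x (C' := (Q ⊔ Z3) ⊔ (X ⊔ B)) ?_ rfl
    rw [hP1]
    have h1 := i4 β.P x
    have h2 : Q ⊔ Z3 ⊔ X ⊔ B = (Q ⊔ Z3) ⊔ (X ⊔ B) := by order
    rw [h2] at h1
    exact h1
  have s2' : ∀ x, I P2 ((Q ⊔ Z3) ⊔ p1.map x) (X ⊔ B) = 0 := by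
    intro x
    refine ind_add s1x' (C' := (Q ⊔ Z3) ⊔ (X ⊔ B)) ?_ rfl
    rw [hP2]
    have h1 := ind_symm (i4 x β.P)
    have h2 : Q ⊔ Z3 ⊔ X ⊔ B = (Q ⊔ Z3) ⊔ (X ⊔ B) := by order
    rw [h2] at h1
    exact h1
  have t2 := s2 (β.P ⊔ vd β.z 1)
  rw [p2.map_sup, ← hP2, ← hZ2] at t2
  have t2' := s2' (β.P ⊔ vd β.z 1)
  rw [p1.map_sup, ← hP1, ← hZ1] at t2'
  have g1 : I Z1 ((P1 ⊔ P2) ⊔ Q) B = 0 := by
    have h1 : I Z1 ((P1 ⊔ Q) ⊔ P2) B = 0 := by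
      refine ind_add a1 (C' := (P1 ⊔ Q) ⊔ B) (ind_symm ?_) rfl
      exact ind_of t2' (by order) (by order) (by order) (by order)
    exact I_zero_mono h1 (by order) (by order)
  have g2 : I Z2 ((P1 ⊔ P2) ⊔ Q) B = 0 := by
    have h1 : I Z2 ((P2 ⊔ Q) ⊔ P1) B = 0 := by
      refine ind_add a2 (C' := (P2 ⊔ Q) ⊔ B) (ind_symm ?_) rfl
      exact ind_of t2 (by order) (by order) (by order) (by order)
    exact I_zero_mono h1 (by order) (by order)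
  have g3 : I (P1 ⊔ P2) Q B = 0 := by
    refine ind_symm (ind_add (ind_symm a5) (C' := P1 ⊔ B) (ind_symm ?_) rfl)
    exact ind_of t2' (by order) (by order) (by order) (by order)
  have g5 : I P1 P2 (X ⊔ B) = 0 := ind_of t2 le_rfl (by order) (by order) (by order)
  -- realness of the difference
  have g6 : 1 ≤ h (dg (p2.qs (β.x i0)) 1) (P1 ⊔ B) := by
    have h1 : h (dg (β.x i0) 1) (sd β.x (Finset.univ.erase i0) ⊔ β.B) = 1 := by
      have e1 := ok.rx.sub (s := {i0}) (t := Finset.univ.erase i0)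
        (by rw [Finset.disjoint_singleton_left]; exact Finset.notMem_erase _ _)
      rw [Finset.card_singleton, Nat.cast_one] at e1
      have e2 : sd β.x {i0} = dg (β.x i0) 1 := by
        apply le_antisymm
        · rw [sd_le]
          intro i hi
          rw [Finset.mem_singleton.mp hi]
        · exact dg_le_sd β.x (Finset.mem_singleton_self i0)
      rw [e2] at e1
      exact e1
    have h2 : h (dg (p2.qs (β.x i0)) 1) (X ⊔ B) = 1 := by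
      have e1 : X ⊔ B = p2.map (sd β.x (Finset.univ.erase i0) ⊔ β.B) := by
        rw [p2.map_sup, ex, eB, hX, hB]
      rw [e1, p2.qs_dg, p2.h_map, h1]
    have h3 : I P2 P1 (X ⊔ B) = 0 := ind_symm g5
    have h4 : dg (p2.qs (β.x i0)) 1 ≤ P2 := by
      rw [p2.qs_dg, hP2]
      exact p2.map_mono (β.x_le i0)
    have h5 : I (dg (p2.qs (β.x i0)) 1) P1 (X ⊔ B) = 0 := ind_of h3 le_rfl (by order) (by order) (by order)
    have h6 := I_zero_iff_h.mp h5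
    rw [h2] at h6
    have h7 : P1 ⊔ (X ⊔ B) = P1 ⊔ B := by order
    rw [h7] at h6
    exact h6.ge
  refine ⟨D, p1, p2, com, j4, fun x => j4 _ _, ?_, ?_⟩
  · rw [p1.map_sup, ← hP1, ← hP2, ← hX, ← hB]
    exact g5
  have lP := β.clo_P p1 p2 i0
  have lQ := β.clo_Q p1 p2 i0
  have lB := β.clo_B p1 p2 i0
  rw [← hP1, ← hP2] at lP
  rw [← hQ] at lQ
  rw [← hB] at lB
  refine ⟨?_, ?_, ?_, ?_, ?_⟩
  · rw [β.clo_Z, ← hZ1, lB]
    exact I_zero_mono g1 le_sup_left (by order)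
  · rw [vd_congr com.z3 1, p2.qs_vd, ← hZ2, lB]
    exact I_zero_mono g2 le_sup_left (by order)
  · rw [lB]
    exact I_zero_mono g3 (by order) (by order)
  · apply Rl.of_ge
    rw [lB, Fintype.card_unit, Nat.cast_one]
    have h1 : vd (β.clo p1 p2 i0).x 1 = dg (p1.qs (β.x i0) - p2.qs (β.x i0)) 1 :=
      vd_unit (p1.qs (β.x i0) - p2.qs (β.x i0)) 1
    rw [h1]
    refine g6.trans ?_
    have h2 : dg (p1.qs (β.x i0)) 1 ≤ P1 := by
      rw [p1.qs_dg, hP1]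
      exact p1.map_mono (β.x_le i0)
    have h3 : h (dg (p2.qs (β.x i0)) 1) (P1 ⊔ B) ≤ h (dg (p1.qs (β.x i0) - p2.qs (β.x i0)) 1) (P1 ⊔ B) := by
      have e1 : h (dg (p2.qs (β.x i0)) 1) (P1 ⊔ B) ≤
          h (dg (p1.qs (β.x i0) - p2.qs (β.x i0)) 1 ⊔ (P1 ⊔ B)) (P1 ⊔ B) := by
        apply h_mono
        have e2 : p2.qs (β.x i0) = p1.qs (β.x i0) - (p1.qs (β.x i0) - p2.qs (β.x i0)) := by ring
        have e3 := dg_sub_le (p1.qs (β.x i0)) (p1.qs (β.x i0) - p2.qs (β.x i0)) (r := 1) le_rfl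
        rw [← e2] at e3
        exact e3.trans (sup_le (h2.trans (le_sup_left.trans le_sup_right)) le_sup_left)
      rw [h_sup_right_of_le le_rfl] at e1
      exact e1
    exact h3.trans (h_anti le_sup_right)
  · have h1 : (β.clo p1 p2 i0).y = fun j => p1.qs (β.y j) := rfl
    unfold Rl
    rw [lB, h1, p1.qs_vd, hB, p1.h_map]
    exact ok.ry

end Vk

end

end

end Pool.Agent.Helper4.CV
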