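import Pool.Agent.Helper4.CV.Cl
import Pool.Agent.Helper38.NS.Noise
import Pool.Agent.Helper50.CV.Power

/-! Exact entropy calculus: from the rigidity of simple vector blocks `z + T C - A T'` to blocks with several real
factors on both sides. -/

set_option autoImplicit false

namespace Pool.Agent.Helper4.CV

open Pool.Agent.Helper31.EC QS Pool.Agent.Helper38.NS

noncomputable section

theorem map_sd {S V : Sp} (r : Pj V S) {ι : Type} (x : ι → QS S) (s : Finset ι) :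
    r.map (sd x s) = sd (fun i => r.qs (x i)) s := by
  unfold sd
  rw [Pool.Agent.Helper31.EC.sup_map]
  congr 1
  funext i
  exact (r.qs_dg (x i) 1).symm

/-- finitely many properties that are stable under extensions -/
theorem exists_all {S : Sp} {ι : Type} [Finite ι] (Pr : ι → ∀ V : Sp, Pj V S → Prop)
    (up : ∀ i V (r : Pj V S) V' (q : Pj V' V), Pr i V r → Pr i V' (q.comp r))
    (ex : ∀ i V (r : Pj V S), ∃ (V' : Sp) (q : Pj V' V), Pr i V' (q.comp r)) :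
    ∃ (V : Sp) (r : Pj V S), ∀ i, Pr i V r := by
  classical
  obtain ⟨n, ⟨e⟩⟩ := Finite.exists_equiv_fin ι
  have key : ∀ m : ℕ, m ≤ n → ∃ (V : Sp) (r : Pj V S), ∀ i, (e i : ℕ) < m → Pr i V r := by
    intro m
    induction m with
    | zero => exact fun _ => ⟨S, Pj.id S, fun i h => absurd h (Nat.not_lt_zero _)⟩
    | succ m ih =>
      intro hm
      obtain ⟨V, r, h⟩ := ih (by omega)
      obtain ⟨V', q, hq⟩ := ex (e.symm ⟨m, by omega⟩) V r
      refine ⟨V', q.comp r, fun i hi => ?_⟩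
      rcases Nat.lt_succ_iff_lt_or_eq.mp hi with h1 | h1
      · exact up i V r V' q (h i h1)
      · have h2 : i = e.symm ⟨m, by omega⟩ := by
          rw [Equiv.eq_symm_apply]
          exact Fin.ext h1
        rw [h2]
        exact hq
  obtain ⟨V, r, h⟩ := key n le_rfl
  exact ⟨V, r, fun i => h i (e i).2⟩

section

variable {S : Sp} {ν ιx ιy ιB ιP ιQ : Type} [Fintype ν] [Fintype ιx] [Fintype ιy] [Fintype ιB] [Fintype ιP]
  [Fintype ιQ]

namespace Vk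

/-- pullback to an extension -/
def pull {V : Sp} (r : Pj V S) (β : Vk S ν ιx ιy ιB ιP ιQ) : Vk V ν ιx ιy ιB ιP ιQ where
  fB := fun t => r.qs (β.fB t)
  fP := fun t => r.qs (β.fP t)
  fQ := fun t => r.qs (β.fQ t)
  x := fun i => r.qs (β.x i)
  C := fun i n => r.qs (β.C i n)
  y := fun j => r.qs (β.y j)
  A := fun j n => r.qs (β.A j n)
  a := fun n => r.qs (β.a n)
  b := fun n => r.qs (β.b n)
  z := fun n => r.qs (β.z n)

variable {V : Sp} (r : Pj V S) (β : Vk S ν ιx ιy ιB ιP ιQ)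

theorem pull_P : (β.pull r).P = r.map β.P := by
  unfold P
  rw [← r.qs_vd]
  apply vd_congr
  rintro (i | ⟨j, n⟩ | n | t) <;> rfl

theorem pull_Q : (β.pull r).Q = r.map β.Q := β.swap.pull_P r

theorem pull_B : (β.pull r).B = r.map β.B := r.qs_vd β.fB 1

theorem pull_z3 (n : ν) : (β.pull r).z3 n = r.qs (β.z3 n) := by
  unfold z3
  simp only [map_add, map_sum, map_mul]
  rfl

variable {β} in
theorem Ok.pull (ok : β.Ok) : (β.pull r).Ok where
  iz := by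
    have h1 : vd (β.pull r).z 1 = r.map (vd β.z 1) := r.qs_vd β.z 1
    rw [h1, pull_P, pull_Q, pull_B, ← r.map_sup, r.I_map]
    exact ok.iz
  iz3 := by
    rw [vd_congr (β.pull_z3 r) 1, r.qs_vd, pull_P, pull_Q, pull_B, ← r.map_sup, r.I_map]
    exact ok.iz3
  ipq := by
    rw [pull_P, pull_Q, pull_B, r.I_map]
    exact ok.ipq
  rx := by
    have h1 : vd (β.pull r).x 1 = r.map (vd β.x 1) := r.qs_vd β.x 1
    unfold Rl
    rw [h1, pull_B, r.h_map]
    exact ok.rx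
  ry := by
    have h1 : vd (β.pull r).y 1 = r.map (vd β.y 1) := r.qs_vd β.y 1
    unfold Rl
    rw [h1, pull_B, r.h_map]
    exact ok.ry

end Vk

/-- rigidity of simple vector blocks, in the form of a common slope -/
def Hphi (ν : Type) [Fintype ν] (ρ κ : ℝ) (h0 : 0 < κ) (h1 : κ ≤ 1) : Prop :=
  ∀ (D : Sp) (ι : Type) [Fintype ι] (f : ι → QS D) (P Q : D.L) (T T' : QS D) (A C z : ν → QS D),
    dg T 1 ≤ P ⊔ vd f 1 → vd A 1 ≤ P ⊔ vd f 1 → dg T' 1 ≤ Q ⊔ vd f 1 → vd C 1 ≤ Q ⊔ vd f 1 →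
    I (vd z 1) (P ⊔ Q) (vd f 1) = 0 → I (vd (fun n => z n + (T * C n - A n * T')) 1) (P ⊔ Q) (vd f 1) = 0 →
    I P Q (vd f 1) = 0 → h (dg T 1) (vd f 1) = 1 → h (dg T' 1) (vd f 1) = 1 → UQ D z (vd f 1) ρ →
    ∃ Φ : ν → QS (dp D κ h0), ∀ n, dQ κ h0 h1 (A n) = Φ n * dQ κ h0 h1 T ∧
      dQ κ h0 h1 (C n) = Φ n * dQ κ h0 h1 T' ∧ dg (Φ n) 1 ≤ dL κ h0 (vd f 1)

variable (β : Vk S ν ιx ιy ιB ιP ιQ) (κ : ℝ) (h0 : 0 < κ) (h1 : κ ≤ 1)

/-- the common slope of the factors `x_i` and `y_j` -/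
def Pr2 [DecidableEq ιx] [DecidableEq ιy] (w : ιx × ιy) (V : Sp) (r : Pj V S) : Prop :=
  ∃ Φ : ν → QS (dp V κ h0), (∀ n, dg (Φ n) 1 ≤ dL κ h0 (r.map β.B)) ∧
    (∀ n, dg (dQ κ h0 h1 (r.qs (β.A w.2 n)) + Φ n * dQ κ h0 h1 (r.qs (β.x w.1))) 1 ≤
      dL κ h0 (r.map (sd β.x (Finset.univ.erase w.1) ⊔ β.B))) ∧
    (∀ n, dg (dQ κ h0 h1 (r.qs (β.C w.1 n)) - Φ n * dQ κ h0 h1 (r.qs (β.y w.2))) 1 ≤
      dL κ h0 (r.map (sd β.y (Finset.univ.erase w.2) ⊔ β.B)))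

theorem Pr2.up [DecidableEq ιx] [DecidableEq ιy] {w : ιx × ιy} {V : Sp} {r : Pj V S}
    (hp : Pr2 β κ h0 h1 w V r) {V' : Sp} (q : Pj V' V) : Pr2 β κ h0 h1 w V' (q.comp r) := by
  obtain ⟨Φ, a1, a2, a3⟩ := hp
  have e : ∀ f : QS S, dQ κ h0 h1 ((q.comp r).qs f) = (dP κ h0 q).qs (dQ κ h0 h1 (r.qs f)) := by
    intro f
    rw [Pj.comp_qs, dP_qs]
  refine ⟨fun n => (dP κ h0 q).qs (Φ n), ?_, ?_, ?_⟩
  · intro n
    rw [(dP κ h0 q).qs_dg, Pj.comp_map, ← dP_map]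
    exact (dP κ h0 q).map_mono (a1 n)
  · intro n
    rw [e, e, ← map_mul, ← map_add, (dP κ h0 q).qs_dg, Pj.comp_map, ← dP_map]
    exact (dP κ h0 q).map_mono (a2 n)
  · intro n
    rw [e, e, ← map_mul, ← map_sub, (dP κ h0 q).qs_dg, Pj.comp_map, ← dP_map]
    exact (dP κ h0 q).map_mono (a3 n)

variable {β κ h0 h1}

theorem exists_pr2_id [DecidableEq ιx] [DecidableEq ιy] {ρ : ℝ} (hW : Hphi ν ρ κ h0 h1) (ok : β.Ok)
    (hu : UQ S β.z β.B ρ) (w : ιx × ιy) : ∃ (V : Sp) (r : Pj V S), Pr2 β κ h0 h1 w V r := by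
  obtain ⟨i, j⟩ := w
  obtain ⟨D1, p1, p2, c1, -, -, i1, ok1⟩ := β.exists_close ok i
  obtain ⟨β1, hβ1⟩ : ∃ β1, β1 = β.clo p1 p2 i := ⟨_, rfl⟩
  rw [← hβ1] at ok1
  obtain ⟨D2, q1, q2, c2, -, -, i2, ok2⟩ := β1.swap.exists_close ok1.swap j
  obtain ⟨β2, hβ2⟩ : ∃ β2, β2 = β1.swap.clo q1 q2 j := ⟨_, rfl⟩
  rw [← hβ2] at ok2
  have eB1 : β1.B = p1.map β.B := by rw [hβ1]; exact β.clo_B p1 p2 i
  have eB2 : β2.B = q1.map (p1.map β.B) := by
    rw [hβ2, β1.swap.clo_B]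
    exact congrArg q1.map eB1
  have vA : ∀ n, β2.C () n = q1.qs (p1.qs (β.A j n)) - q1.qs (p2.qs (β.A j n)) := by
    intro n
    rw [hβ2, hβ1]
    exact map_sub _ _ _
  have vx : β2.y () = q1.qs (p1.qs (β.x i)) - q1.qs (p2.qs (β.x i)) := by
    rw [hβ2, hβ1]
    exact map_sub _ _ _
  have vC : ∀ n, β2.A () n = q1.qs (p1.qs (β.C i n)) - q2.qs (p1.qs (β.C i n)) := by
    intro n
    rw [hβ2, hβ1]
    rfl
  have vy : β2.x () = q1.qs (p1.qs (β.y j)) - q2.qs (p1.qs (β.y j)) := by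
    rw [hβ2, hβ1]
    rfl
  have va : ∀ n, β2.a n = 0 := by
    intro n
    rw [hβ2, hβ1]
    show q1.qs 0 - q2.qs 0 = 0
    rw [map_zero, map_zero, sub_zero]
  have vb : ∀ n, β2.b n = 0 := by
    intro n
    rw [hβ2]
    rfl
  have vz : ∀ n, β2.z n = (q1.comp p1).qs (β.z n) := by
    intro n
    rw [hβ2, hβ1, Pj.comp_qs]
    rfl
  have v3 : ∀ n, β2.z3 n = β2.z n + (β2.y () * β2.A () n - -β2.C () n * β2.x ()) := by
    intro n
    unfold Vk.z3
    rw [va, vb, Finset.univ_unique, Finset.sum_singleton, Finset.sum_singleton]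
    ring
  have hB2 : vd β2.fB 1 = β2.B := rfl
  have u2 : UQ D2 β2.z β2.B ρ := by
    have h2 := hu.pull (q1.comp p1)
    have h3 : β2.z = fun n => (q1.comp p1).qs (β.z n) := funext vz
    rw [eB2, h3, ← Pj.comp_map]
    exact h2
  have nC : vd (fun n => -β2.C () n) 1 ≤ β2.Q := by
    rw [vd_le]
    exact fun n => (Kn D2 1 le_rfl β2.Q).neg_mem (β2.C_le () n)
  have rx := ok2.rx
  have ry := ok2.ry
  unfold Rl at rx ry
  have ex : vd β2.x 1 = dg (β2.x ()) 1 := vd_unit (β2.x ()) 1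
  have ey : vd β2.y 1 = dg (β2.y ()) 1 := vd_unit (β2.y ()) 1
  rw [ex, Fintype.card_unit, Nat.cast_one] at rx
  rw [ey, Fintype.card_unit, Nat.cast_one] at ry
  have iz3 := ok2.iz3
  rw [vd_congr v3 1, sup_comm] at iz3
  have iz := ok2.iz
  rw [sup_comm] at iz
  obtain ⟨Φ, hΦ⟩ := hW D2 ιB β2.fB β2.Q β2.P (β2.y ()) (β2.x ()) (fun n => -β2.C () n) (β2.A ()) β2.z
    ((β2.y_le ()).trans le_sup_left) (nC.trans le_sup_left) ((β2.x_le ()).trans le_sup_left)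
    (((vd_le _ _ _).mpr (fun n => β2.A_le () n)).trans le_sup_left) iz iz3 (ind_symm ok2.ipq) ry rx u2
  rw [hB2, eB2] at hΦ
  refine ⟨D2, q1.comp p1, Φ, ?_, ?_, ?_⟩
  · intro n
    rw [Pj.comp_map]
    exact (hΦ n).2.2
  · intro n
    have e1 := (hΦ n).1
    rw [vA, vx] at e1
    simp only [map_neg, map_sub] at e1
    have hΦB := (hΦ n).2.2
    obtain ⟨g, hg⟩ : ∃ g, g = dQ κ h0 h1 (q1.qs (p1.qs (β.A j n))) + Φ n * dQ κ h0 h1 (q1.qs (p1.qs (β.x i))) :=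
      ⟨_, rfl⟩
    have hg2 : g = dQ κ h0 h1 (q1.qs (p2.qs (β.A j n))) + Φ n * dQ κ h0 h1 (q1.qs (p2.qs (β.x i))) := by
      rw [hg]
      linear_combination -e1
    have l1 : ∀ p : Pj D1 S, ∀ f : QS S, dg f 1 ≤ β.P → dg (dQ κ h0 h1 (q1.qs (p.qs f))) 1 ≤
        dL κ h0 (q1.map (p.map β.P)) ⊔ dL κ h0 (q1.map (p1.map β.B)) := by
      intro p f hf
      rw [dQ_dg κ h0 h1 _ le_rfl, mul_one]
      refine le_trans (dL_mono κ h0 ?_) le_sup_left
      refine (dg_mono _ h1).trans ?_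
      rw [q1.qs_dg, p.qs_dg]
      exact q1.map_mono (p.map_mono hf)
    have m1 : dg g 1 ≤ dL κ h0 (q1.map (p1.map β.P)) ⊔ dL κ h0 (q1.map (p1.map β.B)) := by
      rw [hg]
      exact (Kn _ 1 le_rfl _).add_mem (l1 p1 _ (β.A_le j n)) ((Kn _ 1 le_rfl _).mul_mem
        (hΦB.trans le_sup_right) (l1 p1 _ (β.x_le i)))
    have m2 : dg g 1 ≤ dL κ h0 (q1.map (p2.map β.P)) ⊔ dL κ h0 (q1.map (p1.map β.B)) := by
      rw [hg2]
      exact (Kn _ 1 le_rfl _).add_mem (l1 p2 _ (β.A_le j n)) ((Kn _ 1 le_rfl _).mul_mem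
        (hΦB.trans le_sup_right) (l1 p2 _ (β.x_le i)))
    have i3 := q1.I_map (p1.map β.P) (p2.map β.P) (p1.map (sd β.x (Finset.univ.erase i) ⊔ β.B))
    rw [i1] at i3
    have i4 := dL_I_zero κ h0 i3
    have lB : dL κ h0 (q1.map (p1.map β.B)) ≤ dL κ h0 (q1.map (p1.map (sd β.x (Finset.univ.erase i) ⊔ β.B))) :=
      dL_mono κ h0 (q1.map_mono (p1.map_mono le_sup_right))
    have m3 := le_of_markov (m1.trans (sup_le_sup_left lB _)) (m2.trans (sup_le_sup_left lB _)) i4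
    show dg (dQ κ h0 h1 ((q1.comp p1).qs (β.A j n)) + Φ n * dQ κ h0 h1 ((q1.comp p1).qs (β.x i))) 1 ≤
      dL κ h0 ((q1.comp p1).map (sd β.x (Finset.univ.erase i) ⊔ β.B))
    rw [Pj.comp_qs, Pj.comp_qs, Pj.comp_map, ← hg]
    exact m3
  · intro n
    have e1 := (hΦ n).2.1
    rw [vC, vy] at e1
    simp only [map_sub] at e1
    have hΦB := (hΦ n).2.2
    obtain ⟨g, hg⟩ : ∃ g, g = dQ κ h0 h1 (q1.qs (p1.qs (β.C i n))) - Φ n * dQ κ h0 h1 (q1.qs (p1.qs (β.y j))) :=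
      ⟨_, rfl⟩
    have hg2 : g = dQ κ h0 h1 (q2.qs (p1.qs (β.C i n))) - Φ n * dQ κ h0 h1 (q2.qs (p1.qs (β.y j))) := by
      rw [hg]
      linear_combination e1
    have l1 : ∀ q : Pj D2 D1, ∀ f : QS D1, dg f 1 ≤ β1.Q → dg (dQ κ h0 h1 (q.qs f)) 1 ≤
        dL κ h0 (q.map β1.Q) ⊔ dL κ h0 (q1.map (p1.map β.B)) := by
      intro q f hf
      rw [dQ_dg κ h0 h1 _ le_rfl, mul_one]
      refine le_trans (dL_mono κ h0 ?_) le_sup_left
      refine (dg_mono _ h1).trans ?_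
      rw [q.qs_dg]
      exact q.map_mono hf
    have lC : dg (p1.qs (β.C i n)) 1 ≤ β1.Q := by
      have h2 := β1.C_le () n
      rw [hβ1] at h2
      rw [hβ1]
      exact h2
    have ly : dg (p1.qs (β.y j)) 1 ≤ β1.Q := by
      have h2 := β1.y_le j
      rw [hβ1] at h2
      rw [hβ1]
      exact h2
    have m1 : dg g 1 ≤ dL κ h0 (q1.map β1.Q) ⊔ dL κ h0 (q1.map (p1.map β.B)) := by
      rw [hg]
      exact (Kn _ 1 le_rfl _).sub_mem (l1 q1 _ lC) ((Kn _ 1 le_rfl _).mul_mem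
        (hΦB.trans le_sup_right) (l1 q1 _ ly))
    have m2 : dg g 1 ≤ dL κ h0 (q2.map β1.Q) ⊔ dL κ h0 (q1.map (p1.map β.B)) := by
      rw [hg2]
      exact (Kn _ 1 le_rfl _).sub_mem (l1 q2 _ lC) ((Kn _ 1 le_rfl _).mul_mem
        (hΦB.trans le_sup_right) (l1 q2 _ ly))
    have i3 : I (q1.map β1.Q) (q2.map β1.Q) (q1.map (sd β1.y (Finset.univ.erase j) ⊔ β1.B)) = 0 := i2
    have e2 : sd β1.y (Finset.univ.erase j) = p1.map (sd β.y (Finset.univ.erase j)) := by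
      rw [map_sd, hβ1]
      rfl
    rw [e2, eB1, ← p1.map_sup] at i3
    have i4 := dL_I_zero κ h0 i3
    have lB : dL κ h0 (q1.map (p1.map β.B)) ≤ dL κ h0 (q1.map (p1.map (sd β.y (Finset.univ.erase j) ⊔ β.B))) :=
      dL_mono κ h0 (q1.map_mono (p1.map_mono le_sup_right))
    have m3 := le_of_markov (m1.trans (sup_le_sup_left lB _)) (m2.trans (sup_le_sup_left lB _)) i4
    show dg (dQ κ h0 h1 ((q1.comp p1).qs (β.C i n)) - Φ n * dQ κ h0 h1 ((q1.comp p1).qs (β.y j))) 1 ≤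
      dL κ h0 ((q1.comp p1).map (sd β.y (Finset.univ.erase j) ⊔ β.B))
    rw [Pj.comp_qs, Pj.comp_qs, Pj.comp_map, ← hg]
    exact m3

theorem exists_pr2 [DecidableEq ιx] [DecidableEq ιy] {ρ : ℝ} (hW : Hphi ν ρ κ h0 h1) (ok : β.Ok)
    (hu : UQ S β.z β.B ρ) (w : ιx × ιy) (V : Sp) (r : Pj V S) :
    ∃ (V' : Sp) (q : Pj V' V), Pr2 β κ h0 h1 w V' (q.comp r) := by
  have u2 : UQ V (β.pull r).z (β.pull r).B ρ := by
    rw [Vk.pull_B]
    exact hu.pull r
  obtain ⟨V', q, Φ, a1, a2, a3⟩ := exists_pr2_id hW (ok.pull r) u2 w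
  refine ⟨V', q, Φ, ?_, ?_, ?_⟩
  · intro n
    rw [Pj.comp_map, ← Vk.pull_B]
    exact a1 n
  · intro n
    have h2 := a2 n
    have e1 : sd (β.pull r).x (Finset.univ.erase w.1) = r.map (sd β.x (Finset.univ.erase w.1)) :=
      (map_sd r β.x _).symm
    rw [e1, Vk.pull_B, ← r.map_sup] at h2
    rw [Pj.comp_map, Pj.comp_qs, Pj.comp_qs]
    exact h2
  · intro n
    have h2 := a3 n
    have e1 : sd (β.pull r).y (Finset.univ.erase w.2) = r.map (sd β.y (Finset.univ.erase w.2)) :=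
      (map_sd r β.y _).symm
    rw [e1, Vk.pull_B, ← r.map_sup] at h2
    rw [Pj.comp_map, Pj.comp_qs, Pj.comp_qs]
    exact h2

/-- a function of all subfamilies with one member left out is a function of the base -/
theorem inter_le [DecidableEq ιx] [Nonempty ιx] {x : ιx → QS S} {B : S.L} (hx : Rl x B) {V : Sp} (r : Pj V S)
    (F : (dp V κ h0).L) (hF : ∀ i, F ≤ dL κ h0 (r.map (sd x (Finset.univ.erase i) ⊔ B))) :
    F ≤ dL κ h0 (r.map B) := by
  have key : ∀ s : Finset ιx, F ≤ dL κ h0 (r.map (sd x (Finset.univ \ s) ⊔ B)) := by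
    intro s
    induction s using Finset.induction_on with
    | empty =>
      obtain ⟨i⟩ := ‹Nonempty ιx›
      refine (hF i).trans (dL_mono κ h0 (r.map_mono (sup_le_sup_right (sd_mono x ?_) _)))
      exact fun a _ => by simp
    | insert i s hi ih =>
      have h1 : I (dg (x i) 1) (sd x (Finset.univ.erase i)) (sd x (Finset.univ \ insert i s) ⊔ B) = 0 := by
        apply ind_of_h
        have e1 := hx.sub (s := {i}) (t := Finset.univ.erase i)
          (by rw [Finset.disjoint_singleton_left]; exact Finset.notMem_erase _ _)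
        rw [Finset.card_singleton, Nat.cast_one] at e1
        have e2 : sd x {i} = dg (x i) 1 := by
          apply le_antisymm
          · rw [sd_le]
            intro i' hi'
            rw [Finset.mem_singleton.mp hi']
          · exact dg_le_sd x (Finset.mem_singleton_self i)
        rw [e2] at e1
        have e3 : sd x (Finset.univ.erase i) ⊔ (sd x (Finset.univ \ insert i s) ⊔ B) =
            sd x (Finset.univ.erase i) ⊔ B := by
          have e4 : sd x (Finset.univ \ insert i s) ≤ sd x (Finset.univ.erase i) := by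
            apply sd_mono
            intro a ha
            rw [Finset.mem_sdiff, Finset.mem_insert, not_or] at ha
            exact Finset.mem_erase.mpr ⟨ha.2.1, Finset.mem_univ _⟩
          order
        rw [e3, e1]
        exact h_dg_le_one _ _
      have h2 : sd x (Finset.univ \ s) ≤ dg (x i) 1 ⊔ (sd x (Finset.univ \ insert i s) ⊔ B) := by
        rw [sd_le]
        intro a ha
        by_cases hai : a = i
        · rw [hai]
          exact le_sup_left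
        · refine le_trans (dg_le_sd x ?_) (le_sup_left.trans le_sup_right)
          rw [Finset.mem_sdiff] at ha ⊢
          exact ⟨Finset.mem_univ _, by
            rw [Finset.mem_insert, not_or]
            exact ⟨hai, ha.2⟩⟩
      have h3 := r.I_map (dg (x i) 1) (sd x (Finset.univ.erase i)) (sd x (Finset.univ \ insert i s) ⊔ B)
      rw [h1] at h3
      have h4 := dL_I_zero κ h0 h3
      refine le_of_markov ?_ ?_ h4
      · refine ih.trans ?_
        rw [← dL_sup, ← r.map_sup]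
        exact dL_mono κ h0 (r.map_mono (sup_le h2 (le_sup_right.trans le_sup_right)))
      · refine (hF i).trans ?_
        rw [← dL_sup, ← r.map_sup]
        exact dL_mono κ h0 (r.map_mono (sup_le le_sup_left (le_sup_right.trans le_sup_right)))
  have h2 := key Finset.univ
  rw [Finset.sdiff_self] at h2
  refine h2.trans (dL_mono κ h0 (r.map_mono (sup_le ?_ le_rfl)))
  rw [sd_le]
  intro i hi
  exact absurd hi (Finset.notMem_empty i)

/-- RIGIDITY of vector blocks with several real factors on both sides -/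
theorem Vk.rig [DecidableEq ιx] [DecidableEq ιy] [Nonempty ιx] [Nonempty ιy] {ρ : ℝ} (hW : Hphi ν ρ κ h0 h1)
    (ok : β.Ok) (hu : UQ S β.z β.B ρ) :
    ∃ (V : Sp) (r : Pj V S) (Φ : ιx → ιy → ν → QS (dp V κ h0)) (c : ιy → ν → QS (dp V κ h0))
      (G : ιx → ν → QS (dp V κ h0)),
      (∀ i j n, dg (Φ i j n) 1 ≤ dL κ h0 (r.map β.B)) ∧ (∀ j n, dg (c j n) 1 ≤ dL κ h0 (r.map β.B)) ∧
      (∀ i n, dg (G i n) 1 ≤ dL κ h0 (r.map β.B)) ∧
      (∀ j n, dQ κ h0 h1 (r.qs (β.A j n)) = c j n - ∑ i, Φ i j n * dQ κ h0 h1 (r.qs (β.x i))) ∧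
      (∀ i n, dQ κ h0 h1 (r.qs (β.C i n)) = G i n + ∑ j, Φ i j n * dQ κ h0 h1 (r.qs (β.y j))) := by
  obtain ⟨V, r, hr⟩ := exists_all (fun w : ιx × ιy => Pr2 β κ h0 h1 w)
    (fun w V r V' q hp => Pr2.up β κ h0 h1 hp q) (fun w V r => exists_pr2 hW ok hu w V r)
  choose Φ a1 a2 a3 using hr
  have lx : ∀ (s : Finset ιx) i, i ∈ s → dg (dQ κ h0 h1 (r.qs (β.x i))) 1 ≤ dL κ h0 (r.map (sd β.x s ⊔ β.B)) := by
    intro s i hi
    rw [dQ_dg κ h0 h1 _ le_rfl, mul_one]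
    refine dL_mono κ h0 ((dg_mono _ h1).trans ?_)
    rw [r.qs_dg]
    exact r.map_mono ((dg_le_sd β.x hi).trans le_sup_left)
  have ly : ∀ (s : Finset ιy) i, i ∈ s → dg (dQ κ h0 h1 (r.qs (β.y i))) 1 ≤ dL κ h0 (r.map (sd β.y s ⊔ β.B)) := by
    intro s i hi
    rw [dQ_dg κ h0 h1 _ le_rfl, mul_one]
    refine dL_mono κ h0 ((dg_mono _ h1).trans ?_)
    rw [r.qs_dg]
    exact r.map_mono ((dg_le_sd β.y hi).trans le_sup_left)
  have lB : ∀ A : S.L, dL κ h0 (r.map β.B) ≤ dL κ h0 (r.map (A ⊔ β.B)) :=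
    fun A => dL_mono κ h0 (r.map_mono le_sup_right)
  refine ⟨V, r, fun i j n => Φ (i, j) n,
    fun j n => dQ κ h0 h1 (r.qs (β.A j n)) + ∑ i, Φ (i, j) n * dQ κ h0 h1 (r.qs (β.x i)),
    fun i n => dQ κ h0 h1 (r.qs (β.C i n)) - ∑ j, Φ (i, j) n * dQ κ h0 h1 (r.qs (β.y j)),
    fun i j n => a1 (i, j) n, ?_, ?_, fun j n => by ring, fun i n => by ring⟩
  · intro j n
    refine inter_le ok.rx r _ (fun i => ?_)
    have e1 : dQ κ h0 h1 (r.qs (β.A j n)) + ∑ i, Φ (i, j) n * dQ κ h0 h1 (r.qs (β.x i)) =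
        (dQ κ h0 h1 (r.qs (β.A j n)) + Φ (i, j) n * dQ κ h0 h1 (r.qs (β.x i))) +
        ∑ i' ∈ Finset.univ.erase i, Φ (i', j) n * dQ κ h0 h1 (r.qs (β.x i')) := by
      rw [← Finset.add_sum_erase Finset.univ _ (Finset.mem_univ i)]
      ring
    beta_reduce
    rw [e1]
    refine (Kn _ 1 le_rfl _).add_mem (a2 (i, j) n) ((Kn _ 1 le_rfl _).sum_mem fun i' hi' =>
      (Kn _ 1 le_rfl _).mul_mem ?_ (lx _ i' hi'))
    exact (a1 (i', j) n).trans (lB _)
  · intro i n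
    refine inter_le ok.ry r _ (fun j => ?_)
    have e1 : dQ κ h0 h1 (r.qs (β.C i n)) - ∑ j, Φ (i, j) n * dQ κ h0 h1 (r.qs (β.y j)) =
        (dQ κ h0 h1 (r.qs (β.C i n)) - Φ (i, j) n * dQ κ h0 h1 (r.qs (β.y j))) -
        ∑ j' ∈ Finset.univ.erase j, Φ (i, j') n * dQ κ h0 h1 (r.qs (β.y j')) := by
      rw [← Finset.add_sum_erase Finset.univ _ (Finset.mem_univ j)]
      ring
    beta_reduce
    rw [e1]
    refine (Kn _ 1 le_rfl _).sub_mem (a3 (i, j) n) ((Kn _ 1 le_rfl _).sum_mem fun j' hj' =>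
      (Kn _ 1 le_rfl _).mul_mem ?_ (ly _ j' hj'))
    exact (a1 (i, j') n).trans (lB _)

end

end

end Pool.Agent.Helper4.CV
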