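import Pool.Agent.Helper4.CV.Pr
import Pool.Agent.Helper50.CV.CfA
import Pool.Agent.Helper50.CV.Power

/-! Exact entropy calculus: rigidity of vector blocks of powers: the coefficients of the powers of the height on the
right side are polynomials in the height of the left side, coordinate by coordinate, at a positive depth. -/

set_option autoImplicit false

namespace Pool.Agent.Helper4.CV

open Pool.Agent.Helper31.EC QS Pool.Agent.Helper38.NS Pool.Agent.Helper50.CV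

noncomputable section

section

variable {S : Sp} {ν κ' ιB ιP ιQ : Type} [Fintype ν] [Fintype κ'] [Fintype ιB] [Fintype ιP] [Fintype ιQ]

theorem vcf_pB {β : Pool.Agent.Helper50.VC.Bk S ν κ' ιB ιP ιQ} (c : Pool.Agent.Helper50.VC.Cf β) (l : c.Λ) :
    (c.p l).map β.B = c.r.map β.B := by
  unfold Pool.Agent.Helper50.VC.Bk.B
  rw [← (c.p l).qs_vd, ← c.r.qs_vd]
  exact vd_congr (c.pB l) 1

theorem vcf_Pf {β : Pool.Agent.Helper50.VC.Bk S ν κ' ιB ιP ιQ} (c : Pool.Agent.Helper50.VC.Cf β) :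
    vd c.Pf 1 = Finset.univ.sup fun l => (c.p l).map β.P := by
  apply le_antisymm
  · rw [vd_le]
    intro x
    refine le_trans ?_ (Finset.le_sup (Finset.mem_univ x.1))
    show dg ((c.p x.1).qs (β.pf x.2)) 1 ≤ _
    rw [(c.p x.1).qs_dg]
    exact (c.p x.1).map_mono (dg_le_vd β.pf 1 x.2)
  · apply Finset.sup_le
    intro l _
    unfold Pool.Agent.Helper50.VC.Bk.P
    rw [← (c.p l).qs_vd, vd_le]
    intro j
    exact dg_le_vd c.Pf 1 (l, j)

theorem vcf_add {β : Pool.Agent.Helper50.VC.Bk S ν κ' ιB ιP ιQ} (c : Pool.Agent.Helper50.VC.Cf β) :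
    h (Finset.univ.sup fun l => (c.p l).map β.P) (c.r.map β.B) = ∑ l, h ((c.p l).map β.P) (c.r.map β.B) := by
  rw [← vcf_Pf c]
  have h1 : ∀ l, h ((c.p l).map β.P) (c.r.map β.B) = h β.P β.B := by
    intro l
    rw [← vcf_pB c l, (c.p l).h_map]
  rw [Finset.sum_congr rfl fun l _ => h1 l, Finset.sum_const, Finset.card_univ, nsmul_eq_mul]
  exact c.hp

theorem vcf_one {β : Pool.Agent.Helper50.VC.Bk S ν κ' ιB ιP ιQ} (c : Pool.Agent.Helper50.VC.Cf β) [DecidableEq c.Λ]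
    (l : c.Λ) : I ((c.p l).map β.P) ((Finset.univ.erase l).sup fun l => (c.p l).map β.P) (c.r.map β.B) = 0 :=
  I_one_of Finset.univ _ _ (vcf_add c) (Finset.mem_univ l)

/-- real functions of the left side give real families -/
theorem vcf_rl {β : Pool.Agent.Helper50.VC.Bk S ν κ' ιB ιP ιQ} (c : Pool.Agent.Helper50.VC.Cf β) {x : QS S}
    (hx : dg x 1 ≤ β.P ⊔ β.B) (h1 : h (dg x 1) β.B = 1) : Rl (fun l => (c.p l).qs x) (c.r.map β.B) := by
  have h2 := h_add_of Finset.univ (fun l => (c.p l).map β.P) (fun l => (c.p l).map (dg x 1)) (c.r.map β.B)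
    (vcf_add c) (fun l _ => by
      rw [← vcf_pB c l, ← (c.p l).map_sup]
      exact (c.p l).map_mono hx)
  have h3 : vd (fun l => (c.p l).qs x) 1 = Finset.univ.sup fun l => (c.p l).map (dg x 1) := by
    unfold vd
    congr 1
    funext l
    exact (c.p l).qs_dg x 1
  unfold Rl
  rw [h3, h2]
  have h4 : ∀ l, h ((c.p l).map (dg x 1)) (c.r.map β.B) = 1 := by
    intro l
    rw [← vcf_pB c l, (c.p l).h_map, h1]
  rw [Finset.sum_congr rfl fun l _ => h4 l, Finset.sum_const, Finset.card_univ, nsmul_eq_mul, mul_one]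

/-- real functions of the right side give real families -/
theorem vcf_rl' {β : Pool.Agent.Helper50.VC.Bk S ν κ' ιB ιP ιQ} (c : Pool.Agent.Helper50.VC.Cf β) {x : QS S}
    (hx : dg x 1 ≤ β.Q ⊔ β.B) (h1 : h (dg x 1) β.B = 1) : Rl (fun m => (c.q m).qs x) (c.r.map β.B) :=
  vcf_rl c.swap hx h1

end

section

variable {S : Sp} {ν ιB ιP ιQ : Type} [Fintype ν] [Fintype ιB] [Fintype ιP] [Fintype ιQ] {k : ℕ}

theorem Int_mem {S : Sp} (A : S.L) (n : ℤ) : ((n : ℤ) : QS S) ∈ Kn S 1 le_rfl A := intCast_mem (Kn S 1 le_rfl A) n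

theorem dg_Int {S : Sp} (n : ℤ) : dg ((n : ℤ) : QS S) 1 = ⊥ :=
  le_bot_iff.mp (intCast_mem (Kn S 1 le_rfl ⊥) n)

/-- RIGIDITY of vector blocks of powers -/
theorem rigV [Nonempty ν] {β : Pool.Agent.Helper50.VC.Bk S ν (Fin k ⊕ Fin k) ιB ιP ιQ} (ok : β.Ok) (hk : 0 < k)
    (t τ : QS S) (A C : ν → Fin k → QS S)
    (hu : ∀ n, β.u n = Sum.elim (fun i : Fin k => t ^ ((i : ℕ) + 1)) (fun i => -A n i))
    (hv : ∀ n, β.v n = Sum.elim (C n) (fun i : Fin k => τ ^ ((i : ℕ) + 1)))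
    (ht : h (dg t 1) β.B = 1) (hτ : h (dg τ 1) β.B = 1) {ρ κ : ℝ} {h0 : 0 < κ} {h1 : κ ≤ 1}
    (hW : Hphi ν ρ κ h0 h1) (un : UQ S β.z β.B ρ) :
    ∃ (W : Sp) (p : Pj W S) (Φ : ν → Fin k → Fin (k + 1) → QS (dp W κ h0)),
      (∀ n i, vd (Φ n i) 1 ≤ dL κ h0 (p.map β.B)) ∧
      ∀ n i, dQ κ h0 h1 (p.qs (A n i)) = pe (Φ n i) (dQ κ h0 h1 (p.qs t)) := by
  classical
  obtain ⟨c, hc1, hc2⟩ := Pool.Agent.Helper50.VC.Cf.exists_cf β ok k
  obtain ⟨f, hf⟩ := hc1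
  obtain ⟨f', hf'⟩ := hc2
  obtain ⟨i0, hi0⟩ : ∃ i0 : Fin k, i0 = ⟨0, hk⟩ := ⟨_, rfl⟩
  have : Nonempty (Fin k) := ⟨i0⟩
  obtain ⟨n0⟩ := ‹Nonempty ν›
  have tP : dg t 1 ≤ β.P := by
    have e1 := dg_le_vd β.pf 1 (Sum.inl (n0, Sum.inl i0))
    have e2 : β.pf (Sum.inl (n0, Sum.inl i0)) = t := by
      show β.u n0 (Sum.inl i0) = t
      rw [hu, hi0]
      show t ^ (0 + 1) = t
      ring
    rw [e2] at e1
    exact e1
  have τQ : dg τ 1 ≤ β.Q := by
    have e1 := dg_le_vd β.qf 1 (Sum.inl (n0, Sum.inr i0))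
    have e2 : β.qf (Sum.inl (n0, Sum.inr i0)) = τ := by
      show β.v n0 (Sum.inr i0) = τ
      rw [hv, hi0]
      show τ ^ (0 + 1) = τ
      ring
    rw [e2] at e1
    exact e1
  have AP : ∀ n j, dg (A n j) 1 ≤ β.P := by
    intro n j
    have e1 := dg_le_vd β.pf 1 (Sum.inl (n, Sum.inr j))
    have e2 : β.pf (Sum.inl (n, Sum.inr j)) = -A n j := by
      show β.u n (Sum.inr j) = _
      rw [hu]
      rfl
    rw [e2] at e1
    have e3 : -A n j ∈ Kn S 1 le_rfl β.P := e1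
    have e4 := (Kn S 1 le_rfl β.P).neg_mem e3
    rw [neg_neg] at e4
    exact e4
  have CQ' : ∀ n j, dg (C n j) 1 ≤ β.Q := by
    intro n j
    have e1 := dg_le_vd β.qf 1 (Sum.inl (n, Sum.inl j))
    have e2 : β.qf (Sum.inl (n, Sum.inl j)) = C n j := by
      show β.v n (Sum.inl j) = _
      rw [hv]
      rfl
    rw [e2] at e1
    exact e1
  obtain ⟨X, hX⟩ : ∃ X : Fin k → QS c.W, X = fun j : Fin k => ∑ l, ((c.ε l : ℤ) : QS c.W) * (c.p l).qs t ^ ((j : ℕ) + 1) :=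
    ⟨_, rfl⟩
  obtain ⟨Y, hY⟩ : ∃ Y : Fin k → QS c.W, Y = fun j : Fin k => ∑ m, ((c.δ m : ℤ) : QS c.W) * (c.q m).qs τ ^ ((j : ℕ) + 1) :=
    ⟨_, rfl⟩
  obtain ⟨AA, hAA⟩ : ∃ AA : ν → Fin k → QS c.W, AA = fun n j => ∑ l, ((c.ε l : ℤ) : QS c.W) * (c.p l).qs (A n j) :=
    ⟨_, rfl⟩
  obtain ⟨CC, hCC⟩ : ∃ CC : ν → Fin k → QS c.W, CC = fun n j => ∑ m, ((c.δ m : ℤ) : QS c.W) * (c.q m).qs (C n j) :=
    ⟨_, rfl⟩
  have rX : Rl X (c.r.map β.B) := by
    rw [hX]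
    exact rl_spsum (vcf_rl c (tP.trans le_sup_left) ht) (fun l => ((c.ε l : ℤ) : QS c.W)) (fun l => dg_Int _) f
      (fun l => by rw [hf, Int.cast_one])
  have rY : Rl Y (c.r.map β.B) := by
    rw [hY]
    exact rl_spsum (vcf_rl' c (x := τ) (τQ.trans le_sup_left) hτ) (fun m => ((c.δ m : ℤ) : QS c.W))
      (fun m => dg_Int _) f' (fun l => by rw [hf', Int.cast_one])
  have pP : ∀ l (x : QS S), dg x 1 ≤ β.P → dg ((c.p l).qs x) 1 ≤ vd c.Pf 1 := by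
    intro l x hx
    rw [(c.p l).qs_dg, vcf_Pf c]
    exact ((c.p l).map_mono hx).trans (Finset.le_sup (f := fun l => (c.p l).map β.P) (Finset.mem_univ l))
  have qQ : ∀ m (x : QS S), dg x 1 ≤ β.Q → dg ((c.q m).qs x) 1 ≤ vd c.Qf 1 := by
    intro m x hx
    have e1 : vd c.Qf 1 = Finset.univ.sup fun m => (c.q m).map β.Q := vcf_Pf c.swap
    rw [(c.q m).qs_dg, e1]
    exact ((c.q m).map_mono hx).trans (Finset.le_sup (f := fun m => (c.q m).map β.Q) (Finset.mem_univ m))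
  have kX : ∀ j, dg (X j) 1 ≤ vd c.Pf 1 := by
    intro j
    rw [hX]
    exact (Kn c.W 1 le_rfl _).sum_mem fun l _ => (Kn c.W 1 le_rfl _).mul_mem (Int_mem _ _)
      ((Kn c.W 1 le_rfl _).pow_mem (pP l t tP) _)
  have kY : ∀ j, dg (Y j) 1 ≤ vd c.Qf 1 := by
    intro j
    rw [hY]
    exact (Kn c.W 1 le_rfl _).sum_mem fun m _ => (Kn c.W 1 le_rfl _).mul_mem (Int_mem _ _)
      ((Kn c.W 1 le_rfl _).pow_mem (qQ m τ τQ) _)
  have kA : ∀ n j, dg (AA n j) 1 ≤ vd c.Pf 1 := by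
    intro n j
    rw [hAA]
    exact (Kn c.W 1 le_rfl _).sum_mem fun l _ => (Kn c.W 1 le_rfl _).mul_mem (Int_mem _ _) (pP l _ (AP n j))
  have kC : ∀ n j, dg (CC n j) 1 ≤ vd c.Qf 1 := by
    intro n j
    rw [hCC]
    exact (Kn c.W 1 le_rfl _).sum_mem fun m _ => (Kn c.W 1 le_rfl _).mul_mem (Int_mem _ _) (qQ m _ (CQ' n j))
  obtain ⟨γ, γz, γx, γC, γA, γy, γa, γb, γB, γP, γQ⟩ : ∃ γ : Vk c.W ν (Fin k) (Fin k) ιB
      (c.Λ × ((ν × (Fin k ⊕ Fin k)) ⊕ (ν ⊕ ιP))) (c.M × ((ν × (Fin k ⊕ Fin k)) ⊕ (ν ⊕ ιQ))),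
      γ.z = (fun n => c.r.qs (β.z n)) ∧ γ.x = X ∧ γ.C = (fun i n => CC n i) ∧ γ.A = (fun i n => -AA n i) ∧
      γ.y = Y ∧ γ.a = c.a ∧ γ.b = c.b ∧ γ.B = c.r.map β.B ∧ γ.fP = c.Pf ∧ γ.fQ = c.Qf := ⟨
    { fB := fun i => c.r.qs (β.fB i)
      fP := c.Pf
      fQ := c.Qf
      x := X
      C := fun i n => CC n i
      y := Y
      A := fun i n => -AA n i
      a := c.a
      b := c.b
      z := fun n => c.r.qs (β.z n) }, rfl, rfl, rfl, rfl, rfl, rfl, rfl, c.r.qs_vd _ _, rfl, rfl⟩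
  have gP : γ.P ≤ vd c.Pf 1 := by
    unfold Vk.P
    rw [vd_le]
    rintro (j | ⟨j, n⟩ | n | s)
    · show dg (γ.x j) 1 ≤ _
      rw [γx]; exact kX j
    · show dg (γ.A j n) 1 ≤ _
      rw [γA]
      exact (Kn c.W 1 le_rfl _).neg_mem (kA n j)
    · show dg (γ.a n) 1 ≤ _
      rw [γa]; exact (dg_le_vd c.a 1 n).trans c.ha
    · show dg (γ.fP s) 1 ≤ _
      rw [γP]; exact dg_le_vd c.Pf 1 s
  have gQ : γ.Q ≤ vd c.Qf 1 := by
    unfold Vk.Q
    rw [vd_le]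
    rintro (j | ⟨j, n⟩ | n | s)
    · show dg (γ.y j) 1 ≤ _
      rw [γy]; exact kY j
    · show dg (γ.C j n) 1 ≤ _
      rw [γC]; exact kC n j
    · show dg (γ.b n) 1 ≤ _
      rw [γb]; exact (dg_le_vd c.b 1 n).trans c.hb
    · show dg (γ.fQ s) 1 ≤ _
      rw [γQ]; exact dg_le_vd c.Qf 1 s
  have g3 : ∀ n, γ.z3 n = c.z3 n := by
    intro n
    have e1 := c.eq n
    have e2 : γ.z3 n = c.r.qs (β.z n) + ∑ i, X i * CC n i + ∑ j, Y j * -AA n j + c.a n + c.b n := by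
      unfold Vk.z3
      rw [γz, γx, γC, γA, γy, γa, γb]
    rw [e2, e1, Fintype.sum_sum_type, hu, hv]
    have e3 : ∑ i : Fin k, (∑ l, ((c.ε l : ℤ) : QS c.W) * (c.p l).qs (Sum.elim (fun i : Fin k => t ^ ((i : ℕ) + 1))
        (fun i => -A n i) (Sum.inl i))) * (∑ m, ((c.δ m : ℤ) : QS c.W) * (c.q m).qs (Sum.elim (C n)
        (fun i : Fin k => τ ^ ((i : ℕ) + 1)) (Sum.inl i))) = ∑ i, X i * CC n i := by
      apply Finset.sum_congr rfl
      intro i _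
      rw [hX, hCC]
      simp only [Sum.elim_inl, map_pow]
    have e4 : ∑ i : Fin k, (∑ l, ((c.ε l : ℤ) : QS c.W) * (c.p l).qs (Sum.elim (fun i : Fin k => t ^ ((i : ℕ) + 1))
        (fun i => -A n i) (Sum.inr i))) * (∑ m, ((c.δ m : ℤ) : QS c.W) * (c.q m).qs (Sum.elim (C n)
        (fun i : Fin k => τ ^ ((i : ℕ) + 1)) (Sum.inr i))) = ∑ i, Y i * -AA n i := by
      apply Finset.sum_congr rfl
      intro i _
      rw [hAA, hY]
      simp only [Sum.elim_inr, map_pow, map_neg, mul_neg, Finset.sum_neg_distrib, neg_mul]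
      rw [mul_comm]
    rw [e3, e4]
    ring
  have gok : γ.Ok := by
    refine ⟨?_, ?_, ?_, ?_, ?_⟩
    · rw [γB, γz]
      exact I_zero_mono c.iz le_sup_left (sup_le (gP.trans (le_sup_left.trans le_sup_left))
        (gQ.trans (le_sup_right.trans le_sup_left)))
    · rw [γB, vd_congr g3 1]
      exact I_zero_mono c.iz3 le_sup_left (sup_le (gP.trans (le_sup_left.trans le_sup_left))
        (gQ.trans (le_sup_right.trans le_sup_left)))
    · rw [γB]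
      exact I_zero_mono c.ipq (gP.trans le_sup_left) (gQ.trans le_sup_left)
    · rw [γB, γx]
      exact rX
    · rw [γB, γy]
      exact rY
  have gu : UQ c.W γ.z γ.B ρ := by
    rw [γz, γB]
    exact un.pull c.r
  obtain ⟨W, q, Φ, cc, G, w1, w2, -, w3, -⟩ := Vk.rig hW gok gu
  obtain ⟨l0, hl0⟩ : ∃ l0, l0 = f i0 := ⟨_, rfl⟩
  obtain ⟨g, hg⟩ : ∃ g : ν → Fin k → c.Λ → QS (dp W κ h0), g = fun n j l => dQ κ h0 h1 (q.qs ((c.p l).qs (A n j))) -
    ∑ i : Fin k, Φ i j n * dQ κ h0 h1 (q.qs ((c.p l).qs t)) ^ ((i : ℕ) + 1) := ⟨_, rfl⟩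
  rw [γB] at w1 w2
  have s1 : ∀ n j, ∑ l, ((c.ε l : ℤ) : QS (dp W κ h0)) * g n j l = -cc j n := by
    intro n j
    have e1 := w3 j n
    rw [γA, γx, hAA, hX] at e1
    simp only [map_neg, map_sum, map_mul, map_intCast, map_pow] at e1
    rw [hg]
    simp only [mul_sub]
    rw [Finset.sum_sub_distrib]
    have e2 : ∑ l, ((c.ε l : ℤ) : QS (dp W κ h0)) * ∑ i : Fin k, Φ i j n *
        dQ κ h0 h1 (q.qs ((c.p l).qs t)) ^ ((i : ℕ) + 1) =
        ∑ i : Fin k, Φ i j n * ∑ l, ((c.ε l : ℤ) : QS (dp W κ h0)) *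
        dQ κ h0 h1 (q.qs ((c.p l).qs t)) ^ ((i : ℕ) + 1) := by
      simp only [Finset.mul_sum]
      rw [Finset.sum_comm]
      apply Finset.sum_congr rfl
      intro i _
      apply Finset.sum_congr rfl
      intro l _
      ring
    rw [e2]
    linear_combination -e1
  have lP : ∀ l (x : QS S), dg x 1 ≤ β.P → dg (dQ κ h0 h1 (q.qs ((c.p l).qs x))) 1 ≤
      dL κ h0 (q.map ((c.p l).map β.P)) := by
    intro l x hx
    rw [dQ_dg κ h0 h1 _ le_rfl, mul_one]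
    refine dL_mono κ h0 ((dg_mono _ h1).trans ?_)
    rw [q.qs_dg, (c.p l).qs_dg]
    exact q.map_mono ((c.p l).map_mono hx)
  have kg : ∀ n j l, dg (g n j l) 1 ≤ dL κ h0 (q.map ((c.p l).map β.P)) ⊔ dL κ h0 (q.map (c.r.map β.B)) := by
    intro n j l
    rw [hg]
    refine (Kn _ 1 le_rfl _).sub_mem ?_ ((Kn _ 1 le_rfl _).sum_mem fun i _ => (Kn _ 1 le_rfl _).mul_mem ?_
      ((Kn _ 1 le_rfl _).pow_mem ?_ _))
    · exact (lP l _ (AP n j)).trans le_sup_left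
    · exact (w1 i j n).trans le_sup_right
    · exact (lP l _ tP).trans le_sup_left
  have kg2 : ∀ n j, dg (g n j l0) 1 ≤ dL κ h0 (q.map ((Finset.univ.erase l0).sup fun l => (c.p l).map β.P)) ⊔
      dL κ h0 (q.map (c.r.map β.B)) := by
    intro n j
    have e1 := s1 n j
    rw [← Finset.add_sum_erase Finset.univ _ (Finset.mem_univ l0), hl0, hf, Int.cast_one, one_mul, ← hl0] at e1
    have e2 : g n j l0 = -cc j n - ∑ l ∈ Finset.univ.erase l0, ((c.ε l : ℤ) : QS (dp W κ h0)) * g n j l := by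
      linear_combination e1
    rw [e2]
    refine (Kn _ 1 le_rfl _).sub_mem ((Kn _ 1 le_rfl _).neg_mem ((w2 j n).trans le_sup_right))
      ((Kn _ 1 le_rfl _).sum_mem fun l hl => (Kn _ 1 le_rfl _).mul_mem (Int_mem _ _) ?_)
    refine (kg n j l).trans (sup_le_sup_right (dL_mono κ h0 (q.map_mono ?_)) _)
    exact Finset.le_sup (f := fun l => (c.p l).map β.P) hl
  have kg3 : ∀ n j, dg (g n j l0) 1 ≤ dL κ h0 (q.map (c.r.map β.B)) := by
    intro n j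
    have e1 : I (q.map ((c.p l0).map β.P)) (q.map ((Finset.univ.erase l0).sup fun l => (c.p l).map β.P))
        (q.map (c.r.map β.B)) = 0 := by
      rw [q.I_map]
      exact vcf_one c l0
    exact le_of_markov (kg n j l0) (kg2 n j) (dL_I_zero κ h0 e1)
  refine ⟨W, q.comp (c.p l0), fun n j => Fin.cons (g n j l0) (fun i => Φ i j n), ?_, ?_⟩
  · intro n j
    rw [Pj.comp_map, vcf_pB, vd_le]
    intro i
    induction i using Fin.cases with
    | zero => exact kg3 n j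
    | succ i => exact w1 i j n
  · intro n j
    unfold pe
    rw [Fin.sum_univ_succ, Pj.comp_qs, Pj.comp_qs]
    simp only [Fin.cons_zero, Fin.cons_succ, Fin.val_zero, pow_zero, mul_one, Fin.val_succ]
    rw [hg]
    ring

end

end

end Pool.Agent.Helper4.CV
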