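import Pool.Agent.Helper4.CV.Rig
import Pool.Agent.Helper38.NS.Wvq

/-! Exact entropy calculus: the rigidity of vector blocks from theorem W for vectors. -/

set_option autoImplicit false

namespace Pool.Agent.Helper4.CV

open Pool.Agent.Helper31.EC QS Pool.Agent.Helper38.NS Pool.Agent.Helper50.CV

noncomputable section

/-- theorem W for vectors gives the common slope -/
theorem hphi_of_wvq {N : ℕ} {ρ θ : ℝ} (hW : WVQ N ρ θ) (θ0 : 0 < θ) (θ1 : θ ≤ 1) :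
    Hphi (Fin N) ρ θ θ0 θ1 := by
  intro D ι _ f P Q T T' A C z hT hA hT' hC iz iz3 iPQ rT rT' un
  have h1 := hW D ι inferInstance f P Q T T' A C z (fun n => z n + (T * C n - A n * T')) hT hA hT' hC
    (fun _ => rfl) iz iz3 iPQ rT rT' un
  obtain ⟨Φ, e1, e2, e3⟩ := exists_phi θ0 θ1 hT hA hT' hC iPQ rT rT' h1
  exact ⟨Φ, fun n => ⟨e1 n, e2 n, e3 n⟩⟩

/-- RIGIDITY of vector blocks of powers, from theorem W for vectors -/
theorem rigW {S : Sp} {ιB ιP ιQ : Type} [Fintype ιB] [Fintype ιP] [Fintype ιQ] {k N : ℕ} (hN : 0 < N)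
    {β : Pool.Agent.Helper50.VC.Bk S (Fin N) (Fin k ⊕ Fin k) ιB ιP ιQ} (ok : β.Ok) (hk : 0 < k)
    (t τ : QS S) (A C : Fin N → Fin k → QS S)
    (hu : ∀ n, β.u n = Sum.elim (fun i : Fin k => t ^ ((i : ℕ) + 1)) (fun i => -A n i))
    (hv : ∀ n, β.v n = Sum.elim (C n) (fun i : Fin k => τ ^ ((i : ℕ) + 1)))
    (ht : h (dg t 1) β.B = 1) (hτ : h (dg τ 1) β.B = 1) {ρ θ : ℝ} (θ0 : 0 < θ) (θ1 : θ ≤ 1)
    (hW : WVQ N ρ θ) (un : UQ S β.z β.B ρ) :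
    ∃ (W : Sp) (p : Pj W S) (Φ : Fin N → Fin k → Fin (k + 1) → QS (dp W θ θ0)),
      (∀ n i, vd (Φ n i) 1 ≤ dL θ θ0 (p.map β.B)) ∧
      ∀ n i, dQ θ θ0 θ1 (p.qs (A n i)) = pe (Φ n i) (dQ θ θ0 θ1 (p.qs t)) := by
  have : Nonempty (Fin N) := ⟨⟨0, hN⟩⟩
  exact rigV ok hk t τ A C hu hv ht hτ (hphi_of_wvq hW θ0 θ1) un

end

end Pool.Agent.Helper4.CV
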